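import Pool.Agent.Y775.W3.Stm

/-!
# Project W3: the five term relation
-/

set_option autoImplicit false

namespace Pool.Agent.Y261.W3

open Y775.W3

theorem part1 {R K W : Type} [CommRing R] [IsDomain R] [Field K] [AddCommGroup W]
    (D : RD R K) (L : R → W) (hL : IsLog L) (ω : W →ₗ[ℤ] W →ₗ[ℤ] ℚ) (π : W →ₗ[ℤ] ℚ)
    (ha : ∀ a b, ω a b = - ω b a) (hP : PR D L ω π)
    (hM : ∀ a ∈ Submonoid.closure D.S, a ≠ 0) (b c : R) (hb : b ∈ D.S) (hc : c ∈ D.S)
    (hd : c - b ∈ D.S) :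
    sF ω (L b) (L (c - b)) (L c) =
      ω (L (D.rep (D.ρ b / D.ρ c))) (L (1 - D.rep (D.ρ b / D.ρ c))) := by
  have hS : ∀ a ∈ D.S, a ∈ Submonoid.closure D.S := fun a h => Submonoid.subset_closure h
  have hρb := D.hSρ b hb
  have hρc := D.hSρ c hc
  have hρd := D.hSρ _ hd
  set x := D.ρ b / D.ρ c with hx
  have hx0 : x ≠ 0 := div_ne_zero hρb hρc
  have hx1 : x ≠ 1 := by
    intro h
    apply hρd
    rw [map_sub, sub_eq_zero]
    rw [hx, div_eq_one_iff_eq hρc] at h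
    exact h.symm
  have hr : D.rep x ∈ D.S := by
    have := D.s2 x 0 hx0
    rwa [D.rep0, sub_zero] at this
  have hr' : 1 - D.rep x ∈ D.S := by
    have := D.s2 1 x (Ne.symm hx1)
    rwa [D.rep1] at this
  set r := D.rep x with hrdef
  obtain ⟨y, hy, hy'⟩ := D.s3 b hb c hc x (by rw [hx, div_mul_cancel₀ _ hρc])
  have b0 := hM b (hS b hb)
  have c0 := hM c (hS c hc)
  have d0 := hM _ (hS _ hd)
  have r0 := hM _ (hS _ hr)
  have r0' := hM _ (hS _ hr')
  unfold sF
  rcases hy' with hy' | hy'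
  · rw [hy', mul_zero, sub_eq_zero] at hy
    have e1 : L b = L r + L c := by rw [← hL r c r0 c0, hy]
    have e2 : L (c - b) = L (1 - r) + L c := by
      rw [← hL _ c r0' c0]
      congr 1
      rw [← hy]; ring
    rw [e1, e2]
    simp only [map_add, LinearMap.add_apply]
    have h1 := ha (L c) (L c)
    have h2 := ha (L r) (L c)
    have h3 := ha (L c) (L (1 - r))
    linear_combination (3 / 2) * h1 + h2 + h3
  · have hyM := hS y hy'
    have h1 := hP (r * c) (mul_mem (hS _ hr) (hS _ hc)) b (hS _ hb) y hyM hy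
    have h2 := hP (c - b) (hS _ hd) ((1 - r) * c) (mul_mem (hS _ hr') (hS _ hc)) y hyM
      (by rw [← hy]; ring)
    have h3 := hP ((c - b) * r) (mul_mem (hS _ hd) (hS _ hr)) (b * (1 - r))
      (mul_mem (hS _ hb) (hS _ hr')) y hyM (by rw [← hy]; ring)
    rw [hL r c r0 c0] at h1
    rw [hL _ c r0' c0] at h2
    rw [hL _ r d0 r0, hL b _ b0 r0'] at h3
    simp only [map_add, LinearMap.add_apply] at h1 h2 h3
    have h4 := ha (L b) (L (c - b))
    linear_combination (1 / 2) * (h1 + h2 - h3) + h4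

theorem main : StmFIVE := by
  intro R K W _ _ _ _ D L hL ω π ha hn hP
  have hρM : ∀ a ∈ Submonoid.closure D.S, D.ρ a ≠ 0 := by
    intro a h
    induction h using Submonoid.closure_induction with
    | mem a h => exact D.hSρ a h
    | one => rw [map_one]; exact one_ne_zero
    | mul a b _ _ h1 h2 => rw [map_mul]; exact mul_ne_zero h1 h2
  have hM : ∀ a ∈ Submonoid.closure D.S, a ≠ 0 := by
    rintro a h rfl
    exact hρM 0 h (map_zero _)
  have hS : ∀ a ∈ D.S, a ∈ Submonoid.closure D.S := fun a h => Submonoid.subset_closure h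
  have hS0 : ∀ a ∈ D.S, a ≠ 0 := fun a h => hM a (hS a h)
  have P1 := part1 D L hL ω π ha hP hM
  refine ⟨fun b hb c hc hd => P1 b c hb hc hd, ?_⟩
  intro x w hx0 hx1 hw0 hw1 hxw
  have hwx : w - x ≠ 0 := sub_ne_zero.2 (Ne.symm hxw)
  have hB : ∀ a : R, a - 1 ∈ D.S → ω (L a) (L (1 - a)) = ω (L a) (L (a - 1)) := by
    intro a h
    have h1 : (1 : R) - a = -(a - 1) := by ring
    rw [h1, ha, hn _ _ (hS0 _ h), ← ha]
  set z := x * (w - 1) / (w - x) with hz
  have hz0 : z ≠ 0 := div_ne_zero (mul_ne_zero hx0 (sub_ne_zero.2 hw1)) hwx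
  have hz1 : z ≠ 1 := by
    intro h
    rw [hz, div_eq_one_iff_eq hwx] at h
    have h1 : w * (x - 1) = 0 := by linear_combination h
    rcases mul_eq_zero.1 h1 with h2 | h2
    · exact hw0 h2
    · exact hx1 (sub_eq_zero.1 h2)
  have he3 : D.rep x ∈ D.S := by
    have := D.s2 x 0 hx0
    rwa [D.rep0, sub_zero] at this
  have he4 : D.rep w ∈ D.S := by
    have := D.s2 w 0 hw0
    rwa [D.rep0, sub_zero] at this
  have hc : D.rep z ∈ D.S := by
    have := D.s2 z 0 hz0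
    rwa [D.rep0, sub_zero] at this
  have hh : D.rep x - 1 ∈ D.S := by
    have := D.s2 x 1 hx1
    rwa [D.rep1] at this
  have hP' : D.rep w - 1 ∈ D.S := by
    have := D.s2 w 1 hw1
    rwa [D.rep1] at this
  have hg : D.rep z - 1 ∈ D.S := by
    have := D.s2 z 1 hz1
    rwa [D.rep1] at this
  have hq : D.rep w - D.rep x ∈ D.S := D.s2 w x (Ne.symm hxw)
  have p1 := P1 (D.rep x) (D.rep w) he3 he4 hq
  have p2 := P1 (D.rep x - 1) (D.rep w - 1) hh hP' (by
    have : D.rep w - 1 - (D.rep x - 1) = D.rep w - D.rep x := by ring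
    rw [this]; exact hq)
  rw [D.hrep, D.hrep] at p1
  rw [map_sub, map_sub, D.hrep, D.hrep, map_one,
    show D.rep w - 1 - (D.rep x - 1) = D.rep w - D.rep x by ring] at p2
  rw [← p1, ← p2, hB _ hh, hB _ hP', hB _ hg]
  obtain ⟨m, hm, hm'⟩ := D.s4 x w hx0 hx1 hw0 hw1 hxw
  rw [← hz] at hm
  set e3 := D.rep x with he3d
  set e4 := D.rep w with he4d
  set c := D.rep z with hcd
  have E2 : ω (L (e4 - e3)) (L e4 + L (e3 - 1)) + ω (L e4 + L (e3 - 1)) (L e3 + L (e4 - 1)) +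
      ω (L e3 + L (e4 - 1)) (L (e4 - e3)) + ω (L c) (L (c - 1)) = 0 := by
    rcases hm' with hm' | hm'
    · rw [hm', mul_zero] at hm
      have u1 : L e3 + L (e4 - 1) = L (e4 - e3) + L c := by
        rw [← hL _ _ (hS0 _ he3) (hS0 _ hP'), ← hL _ _ (hS0 _ hq) (hS0 _ hc)]
        congr 1
        linear_combination hm
      have u2 : L e4 + L (e3 - 1) = L (e4 - e3) + L (c - 1) := by
        rw [← hL _ _ (hS0 _ he4) (hS0 _ hh), ← hL _ _ (hS0 _ hq) (hS0 _ hg)]
        congr 1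
        linear_combination hm
      rw [u1, u2]
      simp only [map_add, LinearMap.add_apply]
      have h1 := ha (L (e4 - e3)) (L (e4 - e3))
      have h2 := ha (L (e4 - e3)) (L (c - 1))
      have h3 := ha (L (e4 - e3)) (L c)
      have h4 := ha (L c) (L (c - 1))
      linear_combination (3 / 2) * h1 + h2 + h3 + h4
    · have hmM := hS m hm'
      have h1 := hP (e3 * (e4 - 1)) (mul_mem (hS _ he3) (hS _ hP')) ((e4 - e3) * c)
        (mul_mem (hS _ hq) (hS _ hc)) m hmM hm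
      have h2 := hP (e4 * (c * (e3 - 1))) (mul_mem (hS _ he4) (mul_mem (hS _ hc) (hS _ hh)))
        ((e4 - 1) * (e3 * (c - 1))) (mul_mem (hS _ hP') (mul_mem (hS _ he3) (hS _ hg))) m hmM
        (by rw [← hm]; ring)
      have h3 := hP (e4 * (e3 - 1)) (mul_mem (hS _ he4) (hS _ hh)) ((e4 - e3) * (c - 1))
        (mul_mem (hS _ hq) (hS _ hg)) m hmM (by rw [← hm]; ring)
      rw [hL _ _ (hS0 _ he3) (hS0 _ hP'), hL _ _ (hS0 _ hq) (hS0 _ hc)] at h1
      rw [hL _ _ (hS0 _ he4) (mul_ne_zero (hS0 _ hc) (hS0 _ hh)), hL _ _ (hS0 _ hc) (hS0 _ hh),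
        hL _ _ (hS0 _ hP') (mul_ne_zero (hS0 _ he3) (hS0 _ hg)), hL _ _ (hS0 _ he3) (hS0 _ hg)] at h2
      rw [hL _ _ (hS0 _ he4) (hS0 _ hh), hL _ _ (hS0 _ hq) (hS0 _ hg)] at h3
      simp only [map_add, LinearMap.add_apply] at h1 h2 h3 ⊢
      have a1 := ha (L e3) (L c)
      have a2 := ha (L (e4 - 1)) (L c)
      have a3 := ha (L (e4 - e3)) (L e4)
      have a4 := ha (L (e4 - e3)) (L (e3 - 1))
      linear_combination (1 / 2) * (h1 + h2 - h3) - a1 - a2 + a3 + a4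
  unfold sF
  simp only [map_add, LinearMap.add_apply] at E2
  have a1 := ha (L e3) (L (e3 - 1))
  have a2 := ha (L (e3 - 1)) (L (e4 - e3))
  have a3 := ha (L (e4 - e3)) (L (e4 - 1))
  have a4 := ha (L (e4 - 1)) (L (e3 - 1))
  linear_combination E2 - a1 - a2 - a3 - a4

end Pool.Agent.Y261.W3
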